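import Pool.Agent.W277.UB.Fin
import Pool.Agent.W277.UG.A1
import Pool.Agent.TH450.FF.A
import Pool.Agent.H951R3.PB.F4

/-!
# Places of a function field and the pairing of preperiodic points (helper450)
-/

set_option autoImplicit false

namespace Pool.Agent.TH450.FF

open Pool.Agent.H951R3.PB Pool.Agent.W277.UB Pool.Agent.W277.UG Real Finset

universe u

/-- the trivial absolute value is nonarchimedean -/
theorem trivial_na (L : Type u) [Field L] [DecidableEq L] :
    IsNonarchimedean (AbsoluteValue.trivial : AbsoluteValue L ℝ) := by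
  intro x y
  by_cases hxy : x + y = 0
  · rw [hxy]
    simp
  by_cases hx : x = 0
  · subst hx
    simp
  rw [AbsoluteValue.trivial_apply hxy, AbsoluteValue.trivial_apply hx]
  exact le_max_left _ _

/-- every place extends to the algebraic closure -/
theorem exists_ext_pl {k : Type*} {K : Type u} [Field k] [CharZero k] [Field K] [Algebra k K]
    (Q : PlaceData k K) (v : Q.Pl) :
    ∃ w : AbsoluteValue (AlgebraicClosure K) ℝ, Ext (absv Q v) w ∧ IsNonarchimedean w := by
  classical
  by_cases h : ∃ ϖ : K, ϖ ≠ 0 ∧ Q.ord v ϖ ≠ 0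
  · obtain ⟨ϖ, hπ0, hπ⟩ := h
    obtain ⟨Ω, hΩ1, hΩ2, hΩ3, ι, hι⟩ := exists_ext Q v ϖ hπ0 hπ
    let _ : Algebra K Ω := ι.toAlgebra
    let ψ : AlgebraicClosure K →ₐ[K] Ω := IsAlgClosed.lift
    let w : AbsoluteValue (AlgebraicClosure K) ℝ :=
      { toFun := fun x => ‖ψ x‖
        map_mul' := fun x y => by rw [map_mul, norm_mul]
        nonneg' := fun x => norm_nonneg _
        eq_zero' := fun x => by
          show ‖ψ x‖ = 0 ↔ x = 0
          rw [norm_eq_zero, map_eq_zero]
        add_le' := fun x y => by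
          show ‖ψ (x + y)‖ ≤ ‖ψ x‖ + ‖ψ y‖
          rw [map_add]
          exact norm_add_le _ _ }
    refine ⟨w, ?_, ?_⟩
    · intro x
      show ‖ψ (algebraMap K (AlgebraicClosure K) x)‖ = absv Q v x
      rw [AlgHom.commutes]
      by_cases hx : x = 0
      · subst hx
        simp
      · rw [absv_apply Q v x hx]
        exact hι x hx
    · intro x y
      show ‖ψ (x + y)‖ ≤ max ‖ψ x‖ ‖ψ y‖
      rw [map_add]
      exact IsUltrametricDist.norm_add_le_max _ _
  · push Not at h
    refine ⟨AbsoluteValue.trivial, ?_, trivial_na _⟩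
    intro x
    by_cases hx : x = 0
    · subst hx
      simp
    · rw [absv_apply Q v x hx, h x hx, AbsoluteValue.trivial_apply]
      · simp
      · simpa using hx

/-- the Green function at a preperiodic vector -/
theorem gr_pre {K : Type u} [Field K] [CharZero K] {d : ℕ} (hd : 2 ≤ d)
    {f : Fin 2 → MvPolynomial (Fin 2) K} (hf : ∀ i, (f i).IsHomogeneous d) (h0 : rs f d ≠ 0)
    {x : Fin 2 → K} (hx : x ≠ 0) (h : Pre f x) :
    ∃ (l : ℝ) (c : K), c ≠ 0 ∧ ∀ (V : AbsoluteValue K ℝ) (w : AbsoluteValue (AlgebraicClosure K) ℝ),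
      Ext V w → Gr w (ev (fL K f)) d (vL K x) = l * log (V c) := by
  obtain ⟨m, n, hmn, c, hc, hcx⟩ := h
  refine ⟨1 / ((d : ℝ) ^ n - (d : ℝ) ^ m), c, hc, ?_⟩
  intro V w hVw
  have hFib := F4_fib (by omega : 1 ≤ d) hf h0 w
  have hvx : vL K x ≠ 0 := F4_vL_ne hx
  have hgi : ∀ j : ℕ, Gr w (ev (fL K f)) d ((ev (fL K f))^[j] (vL K x)) =
      (d : ℝ) ^ j * Gr w (ev (fL K f)) d (vL K x) ∧ (ev (fL K f))^[j] (vL K x) ≠ 0 := by
    intro j
    induction j with
    | zero => simpa using hvx
    | succ j ih =>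
      rw [Function.iterate_succ_apply']
      refine ⟨?_, fib_ne_zero hFib ih.2⟩
      rw [gr_map hd hFib ih.2, ih.1]
      ring
  have h1 := (hgi n).1
  have h2 := (hgi m)
  have h3 : (ev (fL K f))^[n] (vL K x) =
      algebraMap K (AlgebraicClosure K) c • (ev (fL K f))^[m] (vL K x) := by
    rw [F4_iter, F4_iter, hcx]
    funext i
    simp [vL]
  have hc' : algebraMap K (AlgebraicClosure K) c ≠ 0 := by simpa using hc
  rw [h3, gr_smul hd hFib h2.2 hc', h2.1, hVw c] at h1
  have hd1 : (1 : ℝ) < d := by exact_mod_cast (by omega : 1 < d)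
  have hlt : (d : ℝ) ^ m < (d : ℝ) ^ n := pow_lt_pow_right₀ hd1 hmn
  have h4 : (d : ℝ) ^ n - (d : ℝ) ^ m ≠ 0 := by linarith
  rw [div_mul_eq_mul_div, eq_div_iff h4]
  linarith

/-- size of the pairing at the absolute value `w` of the closure -/
noncomputable def G {K : Type u} [Field K] (d : ℕ) (f : Fin 2 → MvPolynomial (Fin 2) K)
    (w : AbsoluteValue (AlgebraicClosure K) ℝ) (x y : Fin 2 → K) : ℝ :=
  gg w (ev (fL K f)) d (log (w (rs (fL K f) d))) (vL K x) (vL K y)

/-- size of the map at the absolute value `w` of the closure -/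
noncomputable def msz {K : Type u} [Field K] (d : ℕ) (f : Fin 2 → MvPolynomial (Fin 2) K)
    (w : AbsoluteValue (AlgebraicClosure K) ℝ) : ℝ :=
  mm w (ev (fL K f)) d (log (w (rs (fL K f) d)))

/-- the pairing of two preperiodic vectors is a combination of logarithms of elements of `K` -/
theorem G_pre {K : Type u} [Field K] [CharZero K] {d : ℕ} (hd : 2 ≤ d)
    {f : Fin 2 → MvPolynomial (Fin 2) K} (hf : ∀ i, (f i).IsHomogeneous d) (h0 : rs f d ≠ 0)
    {x y : Fin 2 → K} (hx : Pre f x) (hy : Pre f y) (hxy : wd x y ≠ 0) :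
    ∃ (a : Fin 4 → ℝ) (z : Fin 4 → K), (∀ i, z i ≠ 0) ∧
      ∀ (V : AbsoluteValue K ℝ) (w : AbsoluteValue (AlgebraicClosure K) ℝ), Ext V w →
        G d f w x y = ∑ i, a i * log (V (z i)) := by
  obtain ⟨l, c, hc, H1⟩ := gr_pre hd hf h0 (wd_ne_left hxy) hx
  obtain ⟨l', c', hc', H2⟩ := gr_pre hd hf h0 (wd_ne_right hxy) hy
  refine ⟨![-1, l, l', -1 / (d * (d - 1))], ![wd x y, c, c', rs f d], ?_, ?_⟩
  · intro i
    fin_cases i
    · exact hxy
    · exact hc
    · exact hc'
    · exact h0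
  · intro V w hVw
    unfold G gg
    rw [H1 V w hVw, H2 V w hVw, F4_wd, hVw, F4_rs, hVw, Fin.sum_univ_four]
    simp only [ta, Matrix.cons_val_zero, Matrix.cons_val_one, Matrix.cons_val]
    ring

/-- scaling of the pairing -/
theorem G_equiv {K : Type u} [Field K] [CharZero K] {d : ℕ} (hd : 2 ≤ d)
    {f : Fin 2 → MvPolynomial (Fin 2) K} (hf : ∀ i, (f i).IsHomogeneous d) (h0 : rs f d ≠ 0)
    {V V' : AbsoluteValue K ℝ} {w w' : AbsoluteValue (AlgebraicClosure K) ℝ} (hw : Ext V w)
    (hw' : Ext V' w') {s : ℝ} (hs : ∀ z : K, log (V' z) = s * log (V z))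
    {x y : Fin 2 → K} (hx : Pre f x) (hy : Pre f y) (hxy : wd x y ≠ 0) :
    G d f w' x y = s * G d f w x y := by
  obtain ⟨a, z, hz, H⟩ := G_pre hd hf h0 hx hy hxy
  rw [H V w hw, H V' w' hw', Finset.mul_sum]
  refine Finset.sum_congr rfl fun i _ => ?_
  rw [hs]
  ring

/-- nonnegativity at places of potentially good reduction -/
theorem potgood_G {K : Type u} [Field K] [CharZero K] {d : ℕ} (hd : 2 ≤ d)
    {f : Fin 2 → MvPolynomial (Fin 2) K} (hf : ∀ i, (f i).IsHomogeneous d)
    (h0 : rs (fL K f) d ≠ 0) (w : AbsoluteValue (AlgebraicClosure K) ℝ)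
    (hw : IsNonarchimedean w) (h : PotGoodAt w d f) {x y : Fin 2 → AlgebraicClosure K}
    (hxy : wd x y ≠ 0) : 0 ≤ gg w (ev (fL K f)) d (log (w (rs (fL K f) d))) x y := by
  obtain ⟨g, hgh, hgood, A, c, hA, hc, hconj⟩ := h
  have hfL : ∀ i, (fL K f i).IsHomogeneous d := fun i => (hf i).map _
  have hFib := fib_base w (by omega : 1 ≤ d) hfL h0
  set F := ev (fL K f) with hF
  set r := log (w (rs (fL K f) d)) with hr
  set a : Fin 2 → AlgebraicClosure K := fun i => A i 0 with ha
  set b : Fin 2 → AlgebraicClosure K := fun i => A i 1 with hb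
  have hemb : ∀ z, emb a b z = A.mulVec z := by
    intro z
    funext i
    simp only [emb, ha, hb, Matrix.mulVec, dotProduct, Fin.sum_univ_two, Pi.add_apply,
      Pi.smul_apply, smul_eq_mul]
    ring
  have hab : wd a b ≠ 0 := by
    have : wd a b = A.det := by
      rw [Matrix.det_fin_two]; simp only [wd, ha, hb]; ring
    rw [this]; exact hA
  have hev : ev g = fun z => c • cj a b F z := by
    funext z
    have h1 := hconj z
    rw [← hemb, ← hemb] at h1
    rw [cj, ← D2.coo_smul, ← h1, D2.coo_emb hab]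
  obtain ⟨hx, hy⟩ := D2.wd_swap0 x y hxy
  have hex : emb a b (coo a b x) = x := D2.emb_coo hab x
  have hey : emb a b (coo a b y) = y := D2.emb_coo hab y
  have hxy' : wd (coo a b x) (coo a b y) ≠ 0 := by
    intro h0
    have := D2.wd_emb a b (coo a b x) (coo a b y)
    rw [hex, hey, h0, mul_zero] at this
    exact hxy this
  have h1 := gg_cj hd hFib hab hxy'
  have h2 := gg_scale hd (fib_cj hFib hab) hc hxy'
  rw [hex, hey] at h1
  rw [← h1, ← h2.2]
  obtain ⟨hfib, -⟩ := h2
  rw [← hev] at hfib ⊢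
  set ρ := cr w d r a b + 2 * d * log (w c) with hρ
  -- the Green function is the logarithm of the norm
  have hscale : ∀ v : Fin 2 → AlgebraicClosure K, v ≠ 0 →
      log (nrm w (ev g v)) = d * log (nrm w v) := by
    intro v hv
    obtain ⟨k, u, hk, hu, rfl⟩ := D2.unit_of w hv
    rw [fib_homog hfib, B1_nrm_smul, B1_nrm_smul, F2.unit_ev w hw hgood hu, hu, mul_one,
      mul_one, map_pow, log_pow]
  have hit : ∀ (n : ℕ) (v : Fin 2 → AlgebraicClosure K), v ≠ 0 →
      log (nrm w ((ev g)^[n] v)) = (d : ℝ) ^ n * log (nrm w v) := by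
    intro n v hv
    induction n with
    | zero => simp
    | succ n ih =>
      rw [Function.iterate_succ_apply', hscale _ (fib_ne_zero (fib_iter hfib n) hv), ih]
      ring
  have hd2 : (2 : ℝ) ≤ d := by exact_mod_cast hd
  have hGr : ∀ v : Fin 2 → AlgebraicClosure K, v ≠ 0 → Gr w (ev g) d v = log (nrm w v) := by
    intro v hv
    have h3 := gr_tendsto hd hfib hv
    have h4 : (fun n : ℕ => log (nrm w ((ev g)^[n] v)) / (d : ℝ) ^ n) =
        fun _ => log (nrm w v) := by
      funext n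
      rw [hit n v hv]
      have : (d : ℝ) ^ n ≠ 0 := pow_ne_zero _ (by linarith)
      field_simp
    rw [h4] at h3
    exact tendsto_nhds_unique h3 tendsto_const_nhds
  have hρ0 : ρ ≤ 0 := by
    have hS : Ssup w (ev g) = 0 := by
      have : ∀ v : {v : Fin 2 → AlgebraicClosure K // nrm w v = 1},
          log (nrm w (ev g v.1)) = 0 := by
        intro v
        rw [F2.unit_ev w hw hgood v.2, log_one]
      have hne : Nonempty {v : Fin 2 → AlgebraicClosure K // nrm w v = 1} :=
        ⟨⟨![1, 0], by simp [nrm]⟩⟩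
      rw [Ssup, iSup_congr this, ciSup_const]
    obtain ⟨C, z, hz⟩ := hfib ![1, 0] (by simp [nrm])
    have h5 := (fib_bounds_na w hw (by omega : 1 ≤ d) hfib).1 _ C z (by simp [nrm]) hz
    rw [hS] at h5
    have h6 := hz.res
    have h7 : ∀ j, log (nrm w (ev g (z j))) = 0 := by
      intro j
      rw [F2.unit_ev w hw hgood (hz.unit j), log_one]
    simp only [h7, Finset.sum_const_zero, add_zero] at h6
    rw [← h6]
    nlinarith
  have hta : 0 ≤ ta d ρ := by
    rw [ta]
    apply div_nonneg (by linarith)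
    have : (0 : ℝ) ≤ d - 1 := by linarith
    positivity
  rw [gg, hGr _ (D2.coo_ne hab hx), hGr _ (D2.coo_ne hab hy)]
  have hle := F2.wd_le w hw (coo a b x) (coo a b y)
  have hpos : 0 < w (wd (coo a b x) (coo a b y)) := w.pos hxy'
  have hlog := Real.log_le_log hpos hle
  rw [log_mul (B1_nrm_pos w (D2.coo_ne hab hx)).ne' (B1_nrm_pos w (D2.coo_ne hab hy)).ne']
    at hlog
  linarith

end Pool.Agent.TH450.FF
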