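import Pool.Agent.H951R3.PB.E3

/-!
# Rigidity: a map with many points and values over a subfield (helper450)
-/

set_option autoImplicit false

namespace Pool.Agent.TH450.FF

open Pool.Agent.H951R3.PB Polynomial

section lap

variable {E L : Type*} [Field E] [Field L] [Algebra E L]

/-- coefficientwise application of a linear form -/
noncomputable def lap (φ : L →ₗ[E] E) (p : MvPolynomial (Fin 2) L) : MvPolynomial (Fin 2) E :=
  ∑ m ∈ p.support, MvPolynomial.monomial m (φ (p.coeff m))

theorem lap_coeff (φ : L →ₗ[E] E) (p : MvPolynomial (Fin 2) L) (m : Fin 2 →₀ ℕ) :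
    (lap φ p).coeff m = φ (p.coeff m) := by
  classical
  unfold lap
  rw [MvPolynomial.coeff_sum]
  simp only [MvPolynomial.coeff_monomial]
  rw [Finset.sum_ite_eq' p.support m]
  split_ifs with h
  · rfl
  · rw [MvPolynomial.notMem_support_iff] at h
    rw [h, map_zero]

theorem lap_homog (φ : L →ₗ[E] E) {p : MvPolynomial (Fin 2) L} {d : ℕ} (hp : p.IsHomogeneous d) :
    (lap φ p).IsHomogeneous d := by
  intro m hm
  rw [lap_coeff] at hm
  apply hp
  intro h
  rw [h, map_zero] at hm
  exact hm rfl

theorem lap_eval (φ : L →ₗ[E] E) (p : MvPolynomial (Fin 2) L) (x : Fin 2 → E) (c : E) :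
    φ (MvPolynomial.eval (fun i => algebraMap E L (x i)) p * algebraMap E L c) =
      MvPolynomial.eval x (lap φ p) * c := by
  unfold lap
  rw [MvPolynomial.eval_sum, MvPolynomial.eval_eq', Finset.sum_mul, map_sum, Finset.sum_mul]
  refine Finset.sum_congr rfl fun m _ => ?_
  rw [MvPolynomial.eval_monomial, Finsupp.prod_fintype _ _ (by simp)]
  have h1 : (p.coeff m * ∏ i, algebraMap E L (x i) ^ (m i)) * algebraMap E L c =
      ((∏ i, x i ^ m i) * c) • p.coeff m := by
    rw [Algebra.smul_def, map_mul, map_prod]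
    simp only [map_pow]
    ring
  rw [h1, map_smul, smul_eq_mul]
  ring

end lap

theorem rigid {E L : Type*} [Field E] [Field L] [IsAlgClosed L] [Algebra E L] {d : ℕ}
    (hd : 1 ≤ d) {g : Fin 2 → MvPolynomial (Fin 2) L} (hg : ∀ i, (g i).IsHomogeneous d)
    (h0 : rs g d ≠ 0) (U : Finset E) (hU : 2 * d < U.card)
    (h : ∀ a ∈ U, ∃ u' : Fin 2 → E, ∃ s : L,
      ev g (fun i => algebraMap E L ((![a, 1] : Fin 2 → E) i)) =
        s • fun i => algebraMap E L (u' i)) :
    ∃ (G : Fin 2 → MvPolynomial (Fin 2) E) (c : L), c ≠ 0 ∧ (∀ i, (G i).IsHomogeneous d) ∧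
      ∀ i, (G i).map (algebraMap E L) = MvPolynomial.C c * g i := by
  classical
  have hnz := (rs_ne_zero_iff hd hg).1 h0
  -- a nonzero coefficient
  obtain ⟨i₀, m₀, hm₀⟩ : ∃ i m, (g i).coeff m ≠ 0 := by
    by_contra hcon
    push Not at hcon
    have h1 : ∀ i, g i = 0 := fun i => by
      ext m
      rw [hcon i m, MvPolynomial.coeff_zero]
    have h2 := hnz ![1, 0] (by
      funext i
      simp [ev, h1])
    have h3 := congrFun h2 0
    simp at h3
  obtain ⟨φ, hφ⟩ : ∃ φ : L →ₗ[E] E, φ ((g i₀).coeff m₀) ≠ 0 := by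
    by_contra hcon
    push Not at hcon
    exact hm₀ ((Module.forall_dual_apply_eq_zero_iff E _).1 hcon)
  set G : Fin 2 → MvPolynomial (Fin 2) E := fun i => lap φ (g i) with hG
  have hGh : ∀ i, (G i).IsHomogeneous d := fun i => lap_homog φ (hg i)
  set G' : Fin 2 → MvPolynomial (Fin 2) L := fun i => (G i).map (algebraMap E L) with hG'
  have hG'h : ∀ i, (G' i).IsHomogeneous d := fun i => (hGh i).map _
  have hev : ∀ (i) (x : Fin 2 → E), MvPolynomial.eval (fun j => algebraMap E L (x j)) (G' i) =
      algebraMap E L (MvPolynomial.eval x (G i)) := by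
    intro i x
    rw [hG']
    simp only
    rw [MvPolynomial.eval_map]
    exact (MvPolynomial.eval₂_comp (algebraMap E L) x (G i)).symm
  have hinj : Function.Injective (algebraMap E L) := (algebraMap E L).injective
  -- the crossed relation
  have hrel : ∀ a ∈ U, (dh (g 0)).eval (algebraMap E L a) * (dh (G' 1)).eval (algebraMap E L a) =
      (dh (g 1)).eval (algebraMap E L a) * (dh (G' 0)).eval (algebraMap E L a) := by
    intro a ha
    obtain ⟨u', s, hs⟩ := h a ha
    set x : Fin 2 → E := ![a, 1] with hx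
    set X : Fin 2 → L := fun i => algebraMap E L (x i) with hX
    have hX1 : X 1 ≠ 0 := by simp [hX, hx]
    have hXa : X 0 / X 1 = algebraMap E L a := by simp [hX, hx]
    have hX1' : X 1 = 1 := by simp [hX, hx]
    have e0 : MvPolynomial.eval X (g 0) = s * algebraMap E L (u' 0) := congrFun hs 0
    have e1 : MvPolynomial.eval X (g 1) = s * algebraMap E L (u' 1) := congrFun hs 1
    have h1 : MvPolynomial.eval X (g 0) * algebraMap E L (u' 1) =
        MvPolynomial.eval X (g 1) * algebraMap E L (u' 0) := by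
      rw [e0, e1]; ring
    have h2 := congrArg φ h1
    rw [lap_eval, lap_eval] at h2
    have h3 : MvPolynomial.eval X (g 0) * MvPolynomial.eval X (G' 1) =
        MvPolynomial.eval X (g 1) * MvPolynomial.eval X (G' 0) := by
      rw [hX, hev, hev, ← hX, e0, e1]
      have h4 := congrArg (algebraMap E L) h2
      rw [map_mul, map_mul] at h4
      linear_combination (-s) * h4
    rw [E1.eval_of_ne (hg 0) X hX1, E1.eval_of_ne (hg 1) X hX1, E1.eval_of_ne (hG'h 0) X hX1,
      E1.eval_of_ne (hG'h 1) X hX1, hXa, hX1'] at h3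
    simpa using h3
  -- the polynomial identity
  have hP : dh (g 0) * dh (G' 1) - dh (g 1) * dh (G' 0) = 0 := by
    refine eq_zero_of_natDegree_lt_card_of_eval_eq_zero' _ (U.image (algebraMap E L)) ?_ ?_
    · intro b hb
      rw [Finset.mem_image] at hb
      obtain ⟨a, ha, rfl⟩ := hb
      rw [eval_sub, eval_mul, eval_mul, hrel a ha, sub_self]
    · rw [Finset.card_image_of_injective _ hinj]
      refine lt_of_le_of_lt ?_ hU
      refine (natDegree_sub_le _ _).trans (max_le ?_ ?_)
      · refine natDegree_mul_le.trans ?_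
        have := E1.natDegree_dh_le (hg 0)
        have := E1.natDegree_dh_le (hG'h 1)
        omega
      · refine natDegree_mul_le.trans ?_
        have := E1.natDegree_dh_le (hg 1)
        have := E1.natDegree_dh_le (hG'h 0)
        omega
  rw [sub_eq_zero] at hP
  -- coprimality
  have hco : IsCoprime (dh (g 0)) (dh (g 1)) := by
    refine (isCoprime_iff_aeval_ne_zero_of_isAlgClosed (k := L) L _ _).2 ?_
    intro a
    by_contra hcon
    push Not at hcon
    rw [coe_aeval_eq_eval] at hcon
    have h1 := hnz ![a, 1] (by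
      funext i
      fin_cases i
      · show MvPolynomial.eval ![a, 1] (g 0) = 0
        rw [E1.eval_of_ne (hg 0) _ (by simp)]
        simp [hcon.1]
      · show MvPolynomial.eval ![a, 1] (g 1) = 0
        rw [E1.eval_of_ne (hg 1) _ (by simp)]
        simp [hcon.2])
    have h2 := congrFun h1 1
    simp at h2
  have hdeg : (dh (g 0)).natDegree = d ∨ (dh (g 1)).natDegree = d := by
    by_contra hcon
    push Not at hcon
    have h1 : ∀ i, (dh (g i)).coeff d = 0 := by
      intro i
      apply coeff_eq_zero_of_natDegree_lt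
      refine lt_of_le_of_ne (E1.natDegree_dh_le (hg i)) ?_
      fin_cases i
      · exact hcon.1
      · exact hcon.2
    have h2 := hnz ![1, 0] (by
      funext i
      show MvPolynomial.eval ![1, 0] (g i) = 0
      rw [E1.eval_of_eq (hg i) _ (by simp), h1 i, zero_mul])
    have h3 := congrFun h2 0
    simp at h3
  obtain ⟨q, hq0, hq1⟩ : ∃ q : L[X], dh (G' 0) = dh (g 0) * q ∧ dh (G' 1) = dh (g 1) * q := by
    by_cases hz : dh (g 0) = 0
    · have h1 : IsUnit (dh (g 1)) := by
        rw [hz] at hco
        exact isCoprime_zero_left.1 hco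
      exfalso
      have h2 := natDegree_eq_zero_of_isUnit h1
      rw [hz, natDegree_zero, h2] at hdeg
      omega
    · have h1 : dh (g 0) ∣ dh (G' 0) := by
        have h2 : dh (g 0) ∣ dh (g 1) * dh (G' 0) := ⟨_, hP.symm⟩
        exact hco.dvd_of_dvd_mul_left h2
      obtain ⟨q, hq⟩ := h1
      refine ⟨q, hq, ?_⟩
      rw [hq] at hP
      apply mul_left_cancel₀ hz
      rw [hP]
      ring
  have hGne : dh (G' i₀) ≠ 0 := by
    intro h1
    have h2 := E1.homog_dh (hG'h i₀)
    rw [h1, homogenize_zero] at h2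
    have h3 : (G' i₀).coeff m₀ = 0 := by rw [← h2, MvPolynomial.coeff_zero]
    rw [hG'] at h3
    simp only [MvPolynomial.coeff_map, hG, lap_coeff] at h3
    exact hφ (hinj (by rw [h3, map_zero]))
  have hqne : q ≠ 0 := by
    rintro rfl
    rw [mul_zero] at hq0 hq1
    have : i₀ = 0 ∨ i₀ = 1 := by
      fin_cases i₀ <;> simp
    rcases this with h1 | h1
    · rw [h1] at hGne
      exact hGne hq0
    · rw [h1] at hGne
      exact hGne hq1
  have hqdeg : q.natDegree = 0 := by
    have key : ∀ i, (dh (g i)).natDegree = d → dh (G' i) = dh (g i) * q → q.natDegree = 0 := by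
      intro i hi hi'
      have h1 : dh (g i) ≠ 0 := by
        intro h2
        rw [h2, natDegree_zero] at hi
        omega
      have h2 := E1.natDegree_dh_le (hG'h i)
      rw [hi', natDegree_mul h1 hqne, hi] at h2
      omega
    rcases hdeg with h1 | h1
    · exact key 0 h1 hq0
    · exact key 1 h1 hq1
  obtain ⟨c, hc⟩ := natDegree_eq_zero.1 hqdeg
  have hc0 : c ≠ 0 := by
    rintro rfl
    rw [map_zero] at hc
    exact hqne hc.symm
  refine ⟨G, c, hc0, hGh, ?_⟩
  intro i
  have h1 : dh (G' i) = dh (MvPolynomial.C c * g i) := by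
    have h2 : dh (MvPolynomial.C c * g i) = C c * dh (g i) := by
      simp [dh, Polynomial.algebraMap_eq]
    rw [h2, hc, mul_comm]
    fin_cases i
    · exact hq0
    · exact hq1
  have h2 : (MvPolynomial.C c * g i).IsHomogeneous d := by
    have := (MvPolynomial.isHomogeneous_C (Fin 2) c).mul (hg i)
    simpa using this
  show G' i = MvPolynomial.C c * g i
  rw [← E1.homog_dh (hG'h i), h1, E1.homog_dh h2]

end Pool.Agent.TH450.FF
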