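import Pool.Agent.TH450.FF.C
import Pool.Agent.TH450.FF.D
import Pool.Agent.H951R3.PB.F5
import Pool.Agent.H951R3.PB.F7

/-!
# Vanishing pairings imply isotriviality (helper450)
-/

set_option autoImplicit false

namespace Pool.Agent.TH450.FF

open Pool.Agent.H951R3.PB Pool.Agent.W277.UB Pool.Agent.W277.UG Real Finset

universe u

theorem pre_map {K : Type u} [Field K] {d : ℕ} {f : Fin 2 → MvPolynomial (Fin 2) K}
    (hf : ∀ i, (f i).IsHomogeneous d) {x : Fin 2 → K} (h : Pre f x) : Pre f (ev f x) := by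
  obtain ⟨m, n, hmn, c, hc, hcx⟩ := h
  refine ⟨m, n, hmn, c ^ d, pow_ne_zero _ hc, ?_⟩
  rw [← Function.iterate_succ_apply, Function.iterate_succ_apply', hcx, ev_smul hf,
    ← Function.iterate_succ_apply, Function.iterate_succ_apply']

theorem coo_vL {K : Type u} [Field K] (a b y : Fin 2 → K) :
    coo (vL K a) (vL K b) (vL K y) = vL K (coo a b y) := by
  funext i
  fin_cases i <;> simp [coo, vL, wd]

/-- the cross ratio relation -/
theorem cross_log {K : Type u} [Field K] {d : ℕ} {f : Fin 2 → MvPolynomial (Fin 2) K}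
    {V : AbsoluteValue K ℝ} {w : AbsoluteValue (AlgebraicClosure K) ℝ} (hw : Ext V w)
    {y e0 e1 e2 : Fin 2 → K} (h1 : G d f w y e1 = 0) (h2 : G d f w e0 e2 = 0)
    (h3 : G d f w e0 y = 0) (h4 : G d f w e2 e1 = 0) :
    log (V (wd y e1)) + log (V (wd e0 e2)) = log (V (wd e0 y)) + log (V (wd e2 e1)) := by
  unfold G gg at h1 h2 h3 h4
  rw [F4_wd, hw] at h1 h2 h3 h4
  linarith

variable {k : Type*} {K : Type u} [Field k] [Field K] [CharZero K] [Algebra k K]

/-- coordinates of the preperiodic vectors are proportional to constants -/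
theorem const_coord (Q : PlaceData k K) (w : Q.Pl → AbsoluteValue (AlgebraicClosure K) ℝ)
    (hw : ∀ v, Ext (absv Q v) (w v)) {d : ℕ} {f : Fin 2 → MvPolynomial (Fin 2) K}
    (hG : ∀ x y : Fin 2 → K, Pre f x → Pre f y → wd x y ≠ 0 → ∀ v, G d f (w v) x y = 0)
    {e0 e1 e2 : Fin 2 → K} (p0 : Pre f e0) (p1 : Pre f e1) (p2 : Pre f e2)
    (h01 : wd e0 e1 ≠ 0) (h02 : wd e0 e2 ≠ 0) (h21 : wd e2 e1 ≠ 0) :
    ∃ a b : Fin 2 → K, wd a b ≠ 0 ∧ ∀ y : Fin 2 → K, y ≠ 0 → Pre f y →
      ∃ (s : K) (u : Fin 2 → k), s ≠ 0 ∧ (fun i => algebraMap k K (u i)) = s⁻¹ • coo a b y ∧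
        (wd a y ≠ 0 → u 1 = 1) := by
  set α : K := wd e2 e1 / wd e0 e1 with hα
  set β : K := wd e0 e2 / wd e0 e1 with hβ
  have hα0 : α ≠ 0 := div_ne_zero h21 h01
  have hβ0 : β ≠ 0 := div_ne_zero h02 h01
  set a : Fin 2 → K := α • e0 with ha
  set b : Fin 2 → K := β • e1 with hb
  have hab : wd a b = α * (β * wd e0 e1) := by
    rw [ha, hb, B1_wd_smul_left, B1_wd_smul_right]
  have hab0 : wd a b ≠ 0 := by
    rw [hab]
    exact mul_ne_zero hα0 (mul_ne_zero hβ0 h01)
  refine ⟨a, b, hab0, ?_⟩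
  intro y hy py
  have hyb : wd y b = β * wd y e1 := by rw [hb, B1_wd_smul_right]
  have hay : wd a y = α * wd e0 y := by rw [ha, B1_wd_smul_left]
  by_cases hq : wd a y = 0
  · -- `y` is proportional to `a`
    have hp : wd y b ≠ 0 := by
      intro hp
      have h1 := F7.cramer_vec y a b
      rw [hq, hp, zero_smul, zero_smul, add_zero] at h1
      exact hy ((smul_eq_zero.1 h1).resolve_left hab0)
    refine ⟨wd y b / wd a b, ![1, 0], div_ne_zero hp hab0, ?_, fun h => absurd hq h⟩
    funext i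
    fin_cases i
    · simp only [coo, Pi.smul_apply, smul_eq_mul, Fin.zero_eta, Matrix.cons_val_zero, map_one]
      rw [inv_mul_cancel₀ (div_ne_zero hp hab0)]
    · simp [coo, hq]
  · have hq' : wd e0 y ≠ 0 := by
      intro h
      apply hq
      rw [hay, h, mul_zero]
    obtain ⟨t', ht'⟩ : ∃ t' : k, algebraMap k K t' = wd y b / wd a y := by
      by_cases hp : wd y e1 = 0
      · refine ⟨0, ?_⟩
        rw [hyb, hp, mul_zero, zero_div, map_zero]
      by_cases h2 : wd y e2 = 0
      · refine ⟨1, ?_⟩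
        rw [map_one, hyb, hay, eq_div_iff (mul_ne_zero hα0 hq'), one_mul, hα, hβ,
          div_mul_eq_mul_div, div_mul_eq_mul_div]
        congr 1
        have h3 : wd e2 e1 * wd e0 y - wd e0 e2 * wd y e1 = -(wd y e2 * wd e0 e1) := by
          simp only [wd]
          ring
        rw [h2, zero_mul, neg_zero, sub_eq_zero] at h3
        exact h3
      · have ht0 : wd y b / wd a y ≠ 0 := by
          rw [hyb, hay]
          exact div_ne_zero (mul_ne_zero hβ0 hp) (mul_ne_zero hα0 hq')
        have hq2 : wd e0 y ≠ 0 := hq'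
        apply Q.const _ ht0
        intro v
        have c1 := cross_log (d := d) (f := f) (hw v) (hG y e1 py p1 hp v) (hG e0 e2 p0 p2 h02 v)
          (hG e0 y p0 py hq2 v) (hG e2 e1 p2 p1 h21 v)
        have c2 : log (absv Q v (wd y b / wd a y)) = 0 := by
          have n1 : absv Q v (wd y e1) ≠ 0 := (absv Q v).ne_zero hp
          have n2 : absv Q v (wd e0 e2) ≠ 0 := (absv Q v).ne_zero h02
          have n3 : absv Q v (wd e0 y) ≠ 0 := (absv Q v).ne_zero hq2
          have n4 : absv Q v (wd e2 e1) ≠ 0 := (absv Q v).ne_zero h21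
          have h3 : wd y b / wd a y = (wd y e1 * wd e0 e2) / (wd e0 y * wd e2 e1) := by
            rw [hyb, hay, hα, hβ]
            field_simp
          rw [h3, map_div₀, map_mul, map_mul, log_div (mul_ne_zero n1 n2) (mul_ne_zero n3 n4),
            log_mul n1 n2, log_mul n3 n4]
          linarith
        rw [absv_apply Q v _ ht0, Real.log_exp] at c2
        have c3 : (Q.ord v (wd y b / wd a y) : ℝ) = 0 := by linarith
        have c4 : Q.ord v (wd y b / wd a y) = 0 := by exact_mod_cast c3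
        exact c4.ge
    refine ⟨wd a y / wd a b, ![t', 1], div_ne_zero hq hab0, ?_, fun _ => rfl⟩
    funext i
    fin_cases i
    · simp only [coo, Pi.smul_apply, smul_eq_mul, Fin.zero_eta, Matrix.cons_val_zero]
      rw [ht']
      field_simp
    · show algebraMap k K 1 = (wd a y / wd a b)⁻¹ * (wd a y / wd a b)
      rw [inv_mul_cancel₀ (div_ne_zero hq hab0), map_one]

/-- **Rigidity**: if all pairings of preperiodic vectors vanish, the map is defined over the
constants in suitable coordinates. -/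
theorem isotrivial_of_zero (Q : PlaceData k K)
    (w : Q.Pl → AbsoluteValue (AlgebraicClosure K) ℝ)
    (hw : ∀ v, Ext (absv Q v) (w v)) {d : ℕ} (hd : 2 ≤ d) {f : Fin 2 → MvPolynomial (Fin 2) K}
    (hf : ∀ i, (f i).IsHomogeneous d) (h0 : rs f d ≠ 0)
    (hG : ∀ x y : Fin 2 → K, Pre f x → Pre f y → wd x y ≠ 0 → ∀ v, G d f (w v) x y = 0)
    (X : Finset (Fin 2 → K)) (hX : ∀ x ∈ X, x ≠ 0 ∧ Pre f x)
    (hXX : ∀ x ∈ X, ∀ y ∈ X, x ≠ y → wd x y ≠ 0) (hcard : 2 * d + 2 ≤ X.card) :
    ∃ (A : Matrix (Fin 2) (Fin 2) (AlgebraicClosure K)) (g : Fin 2 → MvPolynomial (Fin 2) k)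
      (c : AlgebraicClosure K), A.det ≠ 0 ∧ (∀ i, (g i).IsHomogeneous d) ∧ c ≠ 0 ∧
      ∀ v : Fin 2 → AlgebraicClosure K, ev (fL K f) (A.mulVec v) =
        c • A.mulVec (ev (fun i => (g i).map (algebraMap k (AlgebraicClosure K))) v) := by
  classical
  obtain ⟨e0, he0, e1, he1, e2, he2, h01, h02, h12⟩ := Finset.two_lt_card.1
    (by omega : 2 < X.card)
  obtain ⟨a, b, hab, hcoord⟩ := const_coord Q w hw hG (hX e0 he0).2 (hX e1 he1).2 (hX e2 he2).2
    (hXX _ he0 _ he1 h01) (hXX _ he0 _ he2 h02) (hXX _ he2 _ he1 (Ne.symm h12))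
  choose! s u hs hu hu1 using hcoord
  -- the points
  set X' := X.filter fun y => wd a y ≠ 0 with hX'
  have hX'card : 2 * d < X'.card := by
    have h1 : (X.filter fun y => ¬ wd a y ≠ 0).card ≤ 1 := by
      rw [Finset.card_le_one]
      intro y hy z hz
      rw [Finset.mem_filter, not_not] at hy hz
      by_contra hyz
      have ha0 : a ≠ 0 := wd_ne_left hab
      have h2 := hXX y hy.1 z hz.1 hyz
      obtain ⟨c1, hc1⟩ := B1_parallel ha0 (by rw [B1_wd_swap, hy.2, neg_zero] : wd y a = 0)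
      obtain ⟨c2, hc2⟩ := B1_parallel ha0 (by rw [B1_wd_swap, hz.2, neg_zero] : wd z a = 0)
      apply h2
      rw [hc1, hc2]
      simp only [wd, Pi.smul_apply, smul_eq_mul]
      ring
    have h2 : X'.card + (X.filter fun y => ¬ wd a y ≠ 0).card = X.card :=
      Finset.card_filter_add_card_filter_not (s := X) (fun y => wd a y ≠ 0)
    omega
  set U : Finset k := X'.image fun y => u y 0 with hU
  have hmem : ∀ y ∈ X', y ∈ X ∧ wd a y ≠ 0 := fun y hy => Finset.mem_filter.1 hy
  have hcoo : ∀ y, y ≠ 0 → Pre f y → coo a b y = s y • fun i => algebraMap k K (u y i) := by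
    intro y hy py
    rw [hu y hy py, smul_smul, mul_inv_cancel₀ (hs y hy py), one_smul]
  have hUcard : 2 * d < U.card := by
    rw [hU, Finset.card_image_of_injOn]
    · exact hX'card
    · intro y hy z hz hyz
      rw [Finset.mem_coe] at hy hz
      obtain ⟨hy1, hy2⟩ := hmem y hy
      obtain ⟨hz1, hz2⟩ := hmem z hz
      obtain ⟨hy0, py⟩ := hX y hy1
      obtain ⟨hz0, pz⟩ := hX z hz1
      by_contra hne
      have h1 := hXX y hy1 z hz1 hne
      apply h1
      have h2 := D2.emb_coo hab y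
      have h3 := D2.emb_coo hab z
      rw [← h2, ← h3, D2.wd_emb, hcoo y hy0 py, hcoo z hz0 pz]
      apply mul_eq_zero_of_right
      have h4 := hu1 y hy0 py hy2
      have h5 := hu1 z hz0 pz hz2
      have h6 : u y 0 = u z 0 := hyz
      simp only [wd, Pi.smul_apply, smul_eq_mul, h4, h5, h6]
      ring
  -- the conjugate
  set a' := vL K a with ha'
  set b' := vL K b with hb'
  have hab' : wd a' b' ≠ 0 := by
    rw [ha', hb', F4_wd]
    simpa using hab
  have hfL : ∀ i, (fL K f i).IsHomogeneous d := fun i => (hf i).map _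
  obtain ⟨g, hg, hev, hrs⟩ := poly_cj (by omega : 1 ≤ d) hfL (F4_rs_ne h0) hab'
  have hFib := F4_fib (by omega : 1 ≤ d) hf h0 AbsoluteValue.trivial
  obtain ⟨g', c, hc, hg', hmap⟩ := rigid (E := k) (by omega : 1 ≤ d) hg hrs U hUcard (by
    intro t ht
    rw [hU, Finset.mem_image] at ht
    obtain ⟨y, hy, rfl⟩ := ht
    obtain ⟨hy1, hy2⟩ := hmem y hy
    obtain ⟨hy0, py⟩ := hX y hy1
    have hfy : ev f y ≠ 0 := by
      intro h
      have h1 := fib_ne_zero hFib (F4_vL_ne hy0)
      rw [F4_ev, h] at h1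
      apply h1
      funext i
      simp [vL]
    have pfy : Pre f (ev f y) := pre_map hf py
    refine ⟨u (ev f y), algebraMap K (AlgebraicClosure K) ((s y)⁻¹ ^ d * s (ev f y)), ?_⟩
    have h1 : (fun i => algebraMap k (AlgebraicClosure K) ((![u y 0, 1] : Fin 2 → k) i)) =
        vL K ((s y)⁻¹ • coo a b y) := by
      rw [← hu y hy0 py]
      funext i
      have h4 := hu1 y hy0 py hy2
      fin_cases i
      · simp [vL, IsScalarTower.algebraMap_apply k K (AlgebraicClosure K)]
      · simp [vL, h4]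
    rw [h1, hev]
    show coo a' b' (ev (fL K f) (emb a' b' (vL K ((s y)⁻¹ • coo a b y)))) = _
    have h2 : emb a' b' (vL K ((s y)⁻¹ • coo a b y)) = vL K ((s y)⁻¹ • y) := by
      have h3 : emb a b ((s y)⁻¹ • coo a b y) = (s y)⁻¹ • y := by
        rw [D2.emb_smul, D2.emb_coo hab]
      rw [← h3]
      funext i
      simp only [emb, vL, ha', hb', Pi.add_apply, Pi.smul_apply, smul_eq_mul, map_mul, map_add]
    rw [h2, F4_ev, ha', hb', coo_vL, ev_smul hf]
    rw [D2.coo_smul, hcoo _ hfy pfy]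
    funext i
    simp only [vL, Pi.smul_apply, smul_eq_mul, map_mul,
      IsScalarTower.algebraMap_apply k K (AlgebraicClosure K)]
    ring)
  refine ⟨Matrix.of fun i j => if j = 0 then a' i else b' i, g', c⁻¹, ?_, hg', inv_ne_zero hc, ?_⟩
  · rw [Matrix.det_fin_two]
    simp only [Matrix.of_apply, if_true, one_ne_zero, if_false]
    intro h
    apply hab'
    simp only [wd]
    linear_combination h
  · intro v
    have hemb : ∀ z : Fin 2 → AlgebraicClosure K,
        (Matrix.of fun i j => if j = 0 then a' i else b' i : Matrix (Fin 2) (Fin 2) _).mulVec z =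
          emb a' b' z := by
      intro z
      funext i
      simp only [emb, Matrix.mulVec, dotProduct, Fin.sum_univ_two, Matrix.of_apply, if_true,
        one_ne_zero, if_false, Pi.add_apply, Pi.smul_apply, smul_eq_mul]
      ring
    rw [hemb, hemb]
    have h1 : ev (fun i => (g' i).map (algebraMap k (AlgebraicClosure K))) v = c • ev g v := by
      funext i
      simp only [ev, hmap i, Pi.smul_apply, smul_eq_mul, map_mul, MvPolynomial.eval_C]
    rw [h1, hev]
    have h2 : emb a' b' (c • cj a' b' (ev (fL K f)) v) =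
        c • emb a' b' (cj a' b' (ev (fL K f)) v) := by
      funext i
      simp only [emb, Pi.add_apply, Pi.smul_apply, smul_eq_mul]
      ring
    rw [h2, smul_smul, inv_mul_cancel₀ hc, one_smul, cj, D2.emb_coo hab']

end Pool.Agent.TH450.FF
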