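import Pool.Agent.TH450.FF.F
import Pool.Agent.H951R3.PB.Lang

/-!
# The theorem over function fields (helper450)
-/

set_option autoImplicit false

namespace Pool.Agent.TH450.FF

open Pool.Agent.H951R3.PB Pool.Agent.W277.UB Pool.Agent.W277.UG Real Finset

universe u v

/-- `f` is conjugate, over the algebraic closure of `K`, to a map whose coefficients are algebraic
over `k` -/
def Isotrivial (k : Type v) {K : Type u} [Field k] [Field K] [Algebra k K] (d : ℕ)
    (f : Fin 2 → MvPolynomial (Fin 2) K) : Prop :=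
  ∃ (A : Matrix (Fin 2) (Fin 2) (AlgebraicClosure K))
    (g : Fin 2 → MvPolynomial (Fin 2) (AlgebraicClosure K)),
    A.det ≠ 0 ∧ (∀ i, (g i).IsHomogeneous d) ∧ (∀ i m, IsAlgebraic k ((g i).coeff m)) ∧
      ∀ x : Fin 2 → AlgebraicClosure K, x ≠ 0 → ∃ c : AlgebraicClosure K, c ≠ 0 ∧
        (fun i => MvPolynomial.aeval (A.mulVec x) (f i)) =
          c • A.mulVec (fun i => MvPolynomial.eval x (g i))

theorem main_ff (d : ℕ) (hd : 2 ≤ d) : ∃ C : ℝ, 0 < C ∧
    ∀ (k : Type v) (K : Type u) [Field k] [CharZero k] [Field K] [Algebra k K],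
      (⊤ : IntermediateField k K).FG →
      (∃ x : K, Transcendental k x ∧ Algebra.IsAlgebraic (IntermediateField.adjoin k {x}) K) →
    ∀ f : Fin 2 → MvPolynomial (Fin 2) K, (∀ i, (f i).IsHomogeneous d) →
      (∀ x : Fin 2 → AlgebraicClosure K, (∀ i, MvPolynomial.aeval x (f i) = 0) → x = 0) →
      ¬ Isotrivial k d f →
    ∀ T : Finset (AbsoluteValue K ℝ),
      (∀ v : AbsoluteValue K ℝ, v.IsNontrivial → (∀ c : k, c ≠ 0 → v (algebraMap k K c) = 1) →
        ¬ PotGood v d f → ∃ t ∈ T, v.IsEquiv t) →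
    ∀ X : Finset (Fin 2 → K), (∀ x ∈ X, x ≠ 0) →
      (∀ x ∈ X, ∀ y ∈ X, ∀ c : K, x = c • y → x = y) →
      (∀ x ∈ X, ∃ m n : ℕ, m < n ∧ ∃ c : K, c ≠ 0 ∧
        (fun v : Fin 2 → K => fun i => MvPolynomial.eval v (f i))^[n] x =
          c • (fun v : Fin 2 → K => fun i => MvPolynomial.eval v (f i))^[m] x) →
      (X.card : ℝ) ≤ C * (T.card + 1) * log (T.card + 2) := by
  obtain ⟨C, hC, H⟩ := core.{u, u, u} d hd
  refine ⟨C, hC, ?_⟩
  intro k K _ _ _ _ hFG hx f hf hz hiso T hT X hX0 hXc hXp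
  obtain ⟨Q⟩ := exists_placeData_ff k K hFG hx
  haveI : CharZero (algebraicClosure k K) :=
    charZero_of_injective_algebraMap (algebraMap k (algebraicClosure k K)).injective
  have h0 : rs f d ≠ 0 := rs_ne_of_noZero (by omega) hf hz
  refine H (algebraicClosure k K) K Q f hf h0 ?_ T ?_ X ?_ ?_
  · rintro ⟨A, g, c, hA, hg, hc, hconj⟩
    apply hiso
    refine ⟨A, fun i => (g i).map (algebraMap (algebraicClosure k K) (AlgebraicClosure K)), hA,
      fun i => (hg i).map _, ?_, ?_⟩
    · intro i m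
      rw [MvPolynomial.coeff_map]
      have h1 : IsAlgebraic k (((g i).coeff m : algebraicClosure k K) : K) :=
        mem_algebraicClosure_iff.1 ((g i).coeff m).2
      have h2 : algebraMap (algebraicClosure k K) (AlgebraicClosure K) ((g i).coeff m) =
          algebraMap K (AlgebraicClosure K) (((g i).coeff m : algebraicClosure k K) : K) := rfl
      rw [h2]
      exact h1.algebraMap
    · intro x _
      refine ⟨c, hc, ?_⟩
      have h1 := hconj x
      have h2 : (fun i => MvPolynomial.aeval (A.mulVec x) (f i)) = ev (fL K f) (A.mulVec x) := by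
        funext i
        simp only [ev, fL]
        rw [MvPolynomial.eval_map, MvPolynomial.aeval_def]
      rw [h2, h1]
      rfl
  · intro v hv hP
    refine hT _ hv ?_ hP
    intro c hc
    have h1 : algebraMap k K c = algebraMap (algebraicClosure k K) K
        (algebraMap k (algebraicClosure k K) c) := rfl
    rw [h1]
    exact absv_alg Q v _ (by simpa using hc)
  · intro x hx
    exact ⟨hX0 x hx, hXp x hx⟩
  · intro x hx y hy hxy h
    obtain ⟨a, ha⟩ := B1_parallel (hX0 y hy) h
    exact hxy (hXc x hx y hy a ha)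

end Pool.Agent.TH450.FF
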